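import Pool.Agent.Helper31.BQ.Stmts2

/-!
# Row SG of the sheet BQ: the splitting of the Walsh functions
-/

set_option autoImplicit false

namespace Pool.Agent.Helper96.BQ

open Pool.Agent.Helper31.BQ

theorem st_SG (hHO : ST_HO) (hWA : ST_WA) : ST_SG := by
  refine ⟨12, fun k => ?_⟩
  obtain ⟨W, hW1, hW2⟩ := hWA k
  have hlt : ∀ (i : Fin (2 ^ k)) (o : Fin 3), (i : ℕ) + 2 ^ k * (o : ℕ) < 2 ^ (k + 2) := by
    intro i o
    have h1 := i.isLt
    have h2 := o.isLt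
    have h3 : 2 ^ k * (o : ℕ) ≤ 2 ^ k * 2 := Nat.mul_le_mul_left _ (by omega)
    have h4 : (2 : ℕ) ^ (k + 2) = 2 ^ k * 4 := by ring
    omega
  let idx : Fin (2 ^ k) → Fin 3 → Fin (2 ^ (k + 2)) := fun i o => ⟨i + 2 ^ k * o, hlt i o⟩
  have hinj : ∀ i i' o o', idx i o = idx i' o' → i = i' ∧ o = o' := by
    intro i i' o o' h
    have h' : (i : ℕ) + 2 ^ k * (o : ℕ) = i' + 2 ^ k * (o' : ℕ) := congrArg Fin.val h
    have h1 : (i : ℕ) = i' := by
      have h3 : ((i : ℕ) + 2 ^ k * (o : ℕ)) % 2 ^ k = (i' + 2 ^ k * (o' : ℕ)) % 2 ^ k := by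
        rw [h']
      rw [Nat.add_mul_mod_self_left, Nat.add_mul_mod_self_left, Nat.mod_eq_of_lt i.isLt,
        Nat.mod_eq_of_lt i'.isLt] at h3
      exact h3
    have h2 : (o : ℕ) = o' := by
      have h4 : 2 ^ k * (o : ℕ) = 2 ^ k * (o' : ℕ) := by omega
      exact Nat.eq_of_mul_eq_mul_left (by positivity) h4
    exact ⟨Fin.ext h1, Fin.ext h2⟩
  let v : Fin (2 ^ k) → Fin 3 → GG k × GG k → ℝ := fun i o p =>
    (1 / 4) * (3 * (W (idx i o) p.1 * W (idx i o) p.2) -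
      ∑ o', W (idx i o') p.1 * W (idx i o') p.2)
  have hWW : ∀ a (g h : GG k), |W a g * W a h| ≤ 1 := by
    intro a g h
    rw [abs_mul, hW1, hW1, mul_one]
  have hv1 : ∀ i o p, |v i o p| ≤ 1 := by
    intro i o p
    have h0 := hWW (idx i 0) p.1 p.2
    have h1 := hWW (idx i 1) p.1 p.2
    have h2 := hWW (idx i 2) p.1 p.2
    have h3 : v i o p = (1 / 4) * (3 * (W (idx i o) p.1 * W (idx i o) p.2) -
      (W (idx i 0) p.1 * W (idx i 0) p.2 + W (idx i 1) p.1 * W (idx i 1) p.2 +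
        W (idx i 2) p.1 * W (idx i 2) p.2)) := by
      simp only [v, Fin.sum_univ_three]
    rw [h3]
    rw [abs_le] at h0 h1 h2 ⊢
    fin_cases o
    · constructor <;> simp only [Fin.zero_eta, Fin.isValue] <;> linarith [h0.1, h0.2, h1.1, h1.2, h2.1, h2.2]
    · constructor <;> simp only [Fin.mk_one, Fin.isValue] <;> linarith [h0.1, h0.2, h1.1, h1.2, h2.1, h2.2]
    · constructor <;> simp only [Fin.reduceFinMk, Fin.isValue] <;> linarith [h0.1, h0.2, h1.1, h1.2, h2.1, h2.2]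
  have hv0 : ∀ i p, ∑ o, v i o p = 0 := by
    intro i p
    simp only [v, Fin.sum_univ_three]
    ring
  obtain ⟨ω, hω⟩ := hHO (Fin (2 ^ k)) (Fin 3) (GG k × GG k) v hv1 hv0
  let e : Fin (2 ^ (k + 1)) ≃ Fin (2 ^ k) × Fin 2 :=
    (finCongr (pow_succ 2 k)).trans finProdFinEquiv.symm
  refine ⟨fun i g => W (idx i (ω i)) g,
    fun j g => W (idx (e j).1 ((ω (e j).1).succAbove (e j).2)) g,
    fun i g => hW1 _ _, fun j g => hW1 _ _, ?_, ?_, ?_, ?_⟩
  · intro i i'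
    rw [hW2]
    by_cases h : i = i'
    · subst h; simp
    · rw [if_neg h, if_neg]
      intro h'
      exact h (hinj _ _ _ _ h').1
  · intro j j'
    rw [hW2]
    by_cases h : j = j'
    · subst h; simp
    · rw [if_neg h, if_neg]
      intro h'
      apply h
      obtain ⟨h1, h2⟩ := hinj _ _ _ _ h'
      rw [h1] at h2
      have h3 := Fin.succAbove_right_injective h2
      exact e.injective (Prod.ext h1 h3)
  · intro i j
    rw [hW2, if_neg]
    intro h'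
    obtain ⟨h1, h2⟩ := hinj _ _ _ _ h'
    rw [h1] at h2
    exact Fin.succAbove_ne _ _ h2.symm
  · intro g h
    have hsum : ∑ j, W (idx (e j).1 ((ω (e j).1).succAbove (e j).2)) g *
        W (idx (e j).1 ((ω (e j).1).succAbove (e j).2)) h =
        ∑ i, ∑ b : Fin 2, W (idx i ((ω i).succAbove b)) g * W (idx i ((ω i).succAbove b)) h := by
      rw [← Fintype.sum_prod_type' (f := fun (i : Fin (2 ^ k)) (b : Fin 2) =>
        W (idx i ((ω i).succAbove b)) g * W (idx i ((ω i).succAbove b)) h)]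
      exact e.sum_comp (fun q : Fin (2 ^ k) × Fin 2 =>
        W (idx q.1 ((ω q.1).succAbove q.2)) g * W (idx q.1 ((ω q.1).succAbove q.2)) h)
    have hkey : ((2 : ℝ) ^ k)⁻¹ * ∑ i, W (idx i (ω i)) g * W (idx i (ω i)) h -
        ((2 : ℝ) ^ (k + 1))⁻¹ * ∑ j, W (idx (e j).1 ((ω (e j).1).succAbove (e j).2)) g *
          W (idx (e j).1 ((ω (e j).1).succAbove (e j).2)) h =
        2 * ((2 : ℝ) ^ k)⁻¹ * ∑ i, v i (ω i) (g, h) := by
      have hv2 : ∀ i, v i (ω i) (g, h) = (1 / 2) * (W (idx i (ω i)) g * W (idx i (ω i)) h) -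
          (1 / 4) * ∑ b : Fin 2, W (idx i ((ω i).succAbove b)) g *
            W (idx i ((ω i).succAbove b)) h := by
        intro i
        have h5 := Fin.sum_univ_succAbove (fun o => W (idx i o) g * W (idx i o) h) (ω i)
        simp only [v]
        rw [h5]
        ring
      rw [hsum, Finset.sum_congr rfl (fun i _ => hv2 i), Finset.sum_sub_distrib,
        ← Finset.mul_sum, ← Finset.mul_sum, pow_succ]
      field_simp
      ring
    have hcard : (Fintype.card (GG k × GG k) : ℝ) = (2 : ℝ) ^ (k + 2) * 2 ^ (k + 2) := by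
      rw [Fintype.card_prod, Fintype.card_fun, Fintype.card_bool, Fintype.card_fin]
      push_cast
      ring
    have hb := hω (g, h)
    rw [hcard, Fintype.card_fin] at hb
    have hlog : Real.log (2 * ((2 : ℝ) ^ (k + 2) * 2 ^ (k + 2))) ≤ 2 * (k : ℝ) + 5 := by
      have h6 : (2 : ℝ) * ((2 : ℝ) ^ (k + 2) * 2 ^ (k + 2)) = 2 ^ (2 * k + 5) := by
        ring
      rw [h6, Real.log_pow]
      have h7 : Real.log 2 ≤ 1 := by
        have := Real.log_two_lt_d9
        linarith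
      push_cast
      nlinarith [Real.log_nonneg (by norm_num : (1 : ℝ) ≤ 2), (Nat.cast_nonneg k : (0 : ℝ) ≤ k)]
    have hk0 : (0 : ℝ) ≤ k := Nat.cast_nonneg k
    have hs : Real.sqrt (((2 ^ k : ℕ) : ℝ) * Real.log (2 * ((2 : ℝ) ^ (k + 2) * 2 ^ (k + 2)))) ≤
        3 * ((k : ℝ) + 1) * Real.sqrt 2 ^ k := by
      apply Real.sqrt_le_iff.mpr
      constructor
      · positivity
      · have h8 : (3 * ((k : ℝ) + 1) * Real.sqrt 2 ^ k) ^ 2 = 9 * ((k : ℝ) + 1) ^ 2 * 2 ^ k := by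
          have h9 : (Real.sqrt 2 ^ k) ^ 2 = (2 : ℝ) ^ k := by
            rw [← pow_mul, mul_comm, pow_mul, Real.sq_sqrt (by norm_num)]
          rw [mul_pow, mul_pow, h9]
          ring
        rw [h8]
        push_cast
        have h10 : Real.log (2 * ((2 : ℝ) ^ (k + 2) * 2 ^ (k + 2))) ≤ 9 * ((k : ℝ) + 1) ^ 2 := by
          nlinarith
        have h11 : (0 : ℝ) ≤ 2 ^ k := by positivity
        nlinarith [mul_le_mul_of_nonneg_left h10 h11]
    rw [hkey, abs_mul, abs_of_nonneg (by positivity : (0 : ℝ) ≤ 2 * ((2 : ℝ) ^ k)⁻¹)]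
    have h12 : ((2 : ℝ) ^ k)⁻¹ * Real.sqrt 2 ^ k = (Real.sqrt 2)⁻¹ ^ k := by
      have h13 : (2 : ℝ) ^ k = Real.sqrt 2 ^ k * Real.sqrt 2 ^ k := by
        rw [← mul_pow, Real.mul_self_sqrt (by norm_num)]
      have h14 : Real.sqrt 2 ^ k ≠ 0 := by positivity
      rw [inv_pow, h13]
      field_simp
    calc 2 * ((2 : ℝ) ^ k)⁻¹ * |∑ i, v i (ω i) (g, h)|
        ≤ 2 * ((2 : ℝ) ^ k)⁻¹ * (2 * (3 * ((k : ℝ) + 1) * Real.sqrt 2 ^ k)) := by
          apply mul_le_mul_of_nonneg_left _ (by positivity)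
          linarith
      _ = 12 * ((k : ℝ) + 1) * (((2 : ℝ) ^ k)⁻¹ * Real.sqrt 2 ^ k) := by ring
      _ = 12 * ((k : ℝ) + 1) * (Real.sqrt 2)⁻¹ ^ k := by rw [h12]

end Pool.Agent.Helper96.BQ
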