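import Pool.Agent.Helper31.BQ.Stmts2

/-!
# Row NA of the sheet BQ: no sequence in the closure of the finite rank operators
-/

set_option autoImplicit false

namespace Pool.Agent.Helper96.BQ

open Pool.Agent.Helper31.BQ Filter Topology

section
variable {H : Type} [NormedAddCommGroup H] [InnerProductSpace ℝ H]

omit [InnerProductSpace ℝ H] in
theorem na_cd_le (x : WW H) (k : ℕ) (g : GG k) : ‖cd x k g‖ ≤ ‖x‖ :=
  (norm_le_pi_norm ((x : ∀ k, GG k → H) k) g).trans (lp.norm_apply_le_norm (by norm_num) x k)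

theorem na_sub (w : H) (J : ℕ → H →L[ℝ] H)
    (σ : ∀ k, Fin (2 ^ k) → GG k → ℝ) (τ : ∀ k, Fin (2 ^ (k + 1)) → GG k → ℝ)
    (ξ : ∀ k, Fin (2 ^ (k + 1)) → EE J σ τ) (k : ℕ) (R R' : EE J σ τ →L[ℝ] EE J σ τ) :
    bt w J σ τ ξ k (R - R') = bt w J σ τ ξ k R - bt w J σ τ ξ k R' := by
  have h : ∀ j g, cd ((R - R') (ξ k j) : WW H) k g =
      cd (R (ξ k j) : WW H) k g - cd (R' (ξ k j) : WW H) k g := fun j g => rfl
  simp only [bt, h, map_sub, inner_sub_right, mul_sub, Finset.sum_sub_distrib]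

theorem na_bound (w : H) (J : ℕ → H →L[ℝ] H)
    (σ : ∀ k, Fin (2 ^ k) → GG k → ℝ) (τ : ∀ k, Fin (2 ^ (k + 1)) → GG k → ℝ)
    (ξ : ∀ k, Fin (2 ^ (k + 1)) → EE J σ τ) (k : ℕ) (hw : ‖w‖ = 1) (hJ : ∀ k, ‖J k‖ ≤ 1)
    (hτ : ∀ k i g, |τ k i g| = 1) (R : EE J σ τ →L[ℝ] EE J σ τ) :
    |bt w J σ τ ξ k R| ≤ ‖R‖ * (((2 : ℝ) ^ (k + 1))⁻¹ *
      ∑ j, ((2 : ℝ) ^ (k + 2))⁻¹ * ∑ _g : GG k, ‖ξ k j‖) := by
  unfold bt
  rw [abs_mul, abs_of_nonneg (by positivity : (0 : ℝ) ≤ ((2 : ℝ) ^ (k + 1))⁻¹), mul_left_comm]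
  apply mul_le_mul_of_nonneg_left _ (by positivity)
  rw [Finset.mul_sum]
  refine (Finset.abs_sum_le_sum_abs _ _).trans (Finset.sum_le_sum fun j _ => ?_)
  rw [abs_mul, abs_of_nonneg (by positivity : (0 : ℝ) ≤ ((2 : ℝ) ^ (k + 2))⁻¹), mul_left_comm]
  apply mul_le_mul_of_nonneg_left _ (by positivity)
  rw [Finset.mul_sum]
  refine (Finset.abs_sum_le_sum_abs _ _).trans (Finset.sum_le_sum fun g _ => ?_)
  rw [abs_mul, hτ, one_mul]
  calc |inner ℝ w (J k (cd (R (ξ k j) : WW H) k g))|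
      ≤ ‖w‖ * ‖J k (cd (R (ξ k j) : WW H) k g)‖ := abs_real_inner_le_norm _ _
    _ ≤ 1 * (1 * ‖cd (R (ξ k j) : WW H) k g‖) := by
        rw [hw]
        exact mul_le_mul_of_nonneg_left ((J k).le_of_opNorm_le (hJ k) _) zero_le_one
    _ ≤ ‖(R (ξ k j) : WW H)‖ := by
        rw [one_mul, one_mul]
        exact na_cd_le _ _ _
    _ = ‖R (ξ k j)‖ := rfl
    _ ≤ ‖R‖ * ‖ξ k j‖ := R.le_opNorm _

end

theorem st_NA (hEX : ST_EX) (hBD : ST_BD) (hBI : ST_BI) (hBF : ST_BF) : ST_NA := by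
  intro H _ _ _ _ J e w S T hS σ τ δ hC hE
  rintro ⟨R, hR1, hR2⟩
  obtain ⟨ξ, hξ⟩ := hEX H J e w S T hS σ τ δ hC
  obtain ⟨_, hBI2⟩ := hBI H J e w S T hS σ τ δ hC ξ hξ
  have hBD' := hBD H J e w S T hS σ τ δ hC ξ hξ
  have hBF' := hBF H J e w S T hS σ τ δ hC ξ hξ
  have hδ : ∀ k, 0 ≤ δ k := hC.2.2.2.2.2.2.2.1
  have hsum : Summable fun k : ℕ => ((k : ℝ) + 4) * δ k := hC.2.2.2.2.2.2.2.2
  let D : ℕ → ℝ := fun k => ((k : ℝ) + 4) * δ k + 2 * (((k + 1 : ℕ) : ℝ) + 4) * δ (k + 1)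
  have hD0 : ∀ k, 0 ≤ D k := by
    intro k
    have h1 := hδ k
    have h2 := hδ (k + 1)
    simp only [D]
    positivity
  have hDs : Summable D := by
    have h1 := ((summable_nat_add_iff 1).2 hsum).mul_left 2
    refine (hsum.add h1).congr ?_
    intro k
    simp only [D]
    ring
  -- telescoping
  have htel : ∀ (Q : EE J σ τ →L[ℝ] EE J σ τ) (m n : ℕ),
      |bt w J σ τ ξ (m + n) Q - bt w J σ τ ξ m Q| ≤ ‖Q‖ * ∑' k, D (k + m) := by
    intro Q m n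
    have h1 : |bt w J σ τ ξ (m + n) Q - bt w J σ τ ξ m Q| ≤
        ‖Q‖ * ∑ k ∈ Finset.range n, D (k + m) := by
      induction n with
      | zero => simp
      | succ n ih =>
        rw [Finset.sum_range_succ, mul_add]
        have h2 := hBD' (m + n) Q
        have h3 : bt w J σ τ ξ (m + (n + 1)) Q - bt w J σ τ ξ m Q =
          (bt w J σ τ ξ (m + n + 1) Q - bt w J σ τ ξ (m + n) Q) +
            (bt w J σ τ ξ (m + n) Q - bt w J σ τ ξ m Q) := by
          rw [← add_assoc]; ring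
        rw [h3]
        refine (abs_add_le _ _).trans ?_
        rw [add_comm (‖Q‖ * _)]
        refine add_le_add ?_ ih
        rw [add_comm n m]
        exact h2
    refine h1.trans (mul_le_mul_of_nonneg_left ?_ (norm_nonneg Q))
    exact ((summable_nat_add_iff m).2 hDs).sum_le_tsum _ (fun k _ => hD0 _)
  -- the closure
  have hzero : ∀ Q ∈ closure (FR (EE J σ τ)),
      Tendsto (fun k => bt w J σ τ ξ k Q) atTop (𝓝 0) := by
    intro Q hQ
    let B : ℝ := ((2 : ℝ) ^ (0 + 1))⁻¹ * ∑ j, ((2 : ℝ) ^ (0 + 2))⁻¹ * ∑ _g : GG 0, ‖ξ 0 j‖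
    have hB0 : 0 ≤ B := by positivity
    have hT0 : 0 ≤ ∑' k, D (k + 0) := tsum_nonneg fun k => hD0 _
    have hall : ∀ (P : EE J σ τ →L[ℝ] EE J σ τ) (k : ℕ),
        |bt w J σ τ ξ k P| ≤ ‖P‖ * (B + ∑' k, D (k + 0)) := by
      intro P k
      have h1 := htel P 0 k
      rw [zero_add] at h1
      have h2 := na_bound w J σ τ ξ 0 hS.1 hS.2.1 hC.2.1 P
      have h3 : bt w J σ τ ξ k P = (bt w J σ τ ξ k P - bt w J σ τ ξ 0 P) +
        bt w J σ τ ξ 0 P := by ring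
      rw [h3]
      refine (abs_add_le _ _).trans ?_
      rw [mul_add, add_comm (‖P‖ * B)]
      exact add_le_add h1 h2
    rw [Metric.tendsto_atTop]
    intro ε hε
    let K : ℝ := B + ∑' k, D (k + 0)
    have hK : 0 ≤ K := add_nonneg hB0 hT0
    obtain ⟨P, hP1, hP2⟩ := (Metric.mem_closure_iff (s := FR (EE J σ τ)) (a := Q)).1 hQ
      (ε / (2 * (K + 1))) (by positivity)
    have h4 := hBF' P hP1
    rw [Metric.tendsto_atTop] at h4
    obtain ⟨N, hN⟩ := h4 (ε / 2) (by positivity)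
    refine ⟨N, fun k hk => ?_⟩
    have h5 := hN k hk
    rw [Real.dist_0_eq_abs] at h5 ⊢
    have h6 := hall (Q - P) k
    rw [na_sub] at h6
    have hd : dist Q P = ‖Q - P‖ := dist_eq_norm Q P
    rw [hd] at hP2
    have h7 : ‖Q - P‖ * K ≤ ε / 2 := by
      have h8 : ‖Q - P‖ * (K + 1) ≤ ε / 2 := by
        have h9 : ε / 2 = ε / (2 * (K + 1)) * (K + 1) := by
          field_simp
        rw [h9]
        exact mul_le_mul_of_nonneg_right hP2.le (by positivity)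
      nlinarith [norm_nonneg (Q - P)]
    have h10 : bt w J σ τ ξ k Q = (bt w J σ τ ξ k Q - bt w J σ τ ξ k P) + bt w J σ τ ξ k P := by
      ring
    rw [h10]
    refine (abs_add_le _ _).trans_lt ?_
    have h11 : |bt w J σ τ ξ k Q - bt w J σ τ ξ k P| ≤ ε / 2 := h6.trans h7
    linarith
  -- tails
  have htail : ∀ Q ∈ closure (FR (EE J σ τ)), ∀ m,
      |bt w J σ τ ξ m Q| ≤ ‖Q‖ * ∑' k, D (k + m) := by
    intro Q hQ m
    have h1 : Tendsto (fun n => |bt w J σ τ ξ (m + n) Q - bt w J σ τ ξ m Q|) atTop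
        (𝓝 |0 - bt w J σ τ ξ m Q|) := by
      have h2 : Tendsto (fun n => bt w J σ τ ξ (m + n) Q) atTop (𝓝 0) := by
        have h3 := (tendsto_add_atTop_iff_nat m).2 (hzero Q hQ)
        refine h3.congr ?_
        intro n
        rw [add_comm]
      exact (h2.sub_const _).abs
    rw [zero_sub, abs_neg] at h1
    exact le_of_tendsto' h1 (fun n => htel Q m n)
  -- Banach-Steinhaus
  obtain ⟨M, hM⟩ := banach_steinhaus (g := R) (fun x => by
    obtain ⟨C, hC'⟩ := (Metric.isBounded_range_of_tendsto _ (hR2 x)).exists_norm_le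
    exact ⟨C, fun i => hC' _ ⟨i, rfl⟩⟩)
  have hM0 : 0 ≤ M := (norm_nonneg (R 0)).trans (hM 0)
  have hfin : ∀ m, 1 ≤ M * ∑' k, D (k + m) := by
    intro m
    have h1 := (hBI2 m R hR2).abs
    rw [abs_one] at h1
    refine le_of_tendsto' h1 (fun i => (htail (R i) (hR1 i) m).trans ?_)
    exact mul_le_mul_of_nonneg_right (hM i) (tsum_nonneg fun k => hD0 _)
  have hlim : Tendsto (fun m => M * ∑' k, D (k + m)) atTop (𝓝 (M * 0)) :=
    (tendsto_sum_nat_add D).const_mul M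
  rw [mul_zero] at hlim
  have := ge_of_tendsto' hlim hfin
  linarith

end Pool.Agent.Helper96.BQ
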